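import Pool.Agent.Helper8.UN.Stmts
import Pool.Agent.Helper14.UB.SURC
import Pool.Agent.Helper18.UB.LNK
import Pool.Agent.Helper89.UB.UNI
import Pool.Agent.Helper97.UB.BIN

set_option autoImplicit false

open Finset

namespace Pool.Agent.Helper8.UN

open Pool.Agent.Helper89.UB

theorem sti_choose (q m : ℕ) : q * q.choose m = (m + 1) * q.choose (m + 1) + m * q.choose m := by
  have h := Nat.choose_succ_right_eq q m
  rcases le_or_gt m q with h1 | h1
  · obtain ⟨d, rfl⟩ := Nat.exists_eq_add_of_le h1
    rw [Nat.add_sub_cancel_left] at h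
    nlinarith
  · rw [Nat.choose_eq_zero_of_lt h1, Nat.choose_eq_zero_of_lt (h1.trans (Nat.lt_succ_self m))]
    simp

/-- powers in terms of Stirling numbers -/
theorem sti_pow (n q : ℕ) :
    q ^ n = ∑ m ∈ range (n + 1), q.choose m * (m.factorial * Nat.stirlingSecond n m) := by
  induction n with
  | zero => simp
  | succ n ih =>
    have h1 : q ^ (n + 1) = ∑ m ∈ range (n + 1),
        (q * q.choose m) * (m.factorial * Nat.stirlingSecond n m) := by
      rw [pow_succ, ih, mul_comm, mul_sum]
      apply sum_congr rfl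
      intro m _
      ring
    have h2 : ∑ m ∈ range (n + 1), (q * q.choose m) * (m.factorial * Nat.stirlingSecond n m) =
        ∑ m ∈ range (n + 1), q.choose (m + 1) * ((m + 1).factorial * Nat.stirlingSecond n m) +
        ∑ m ∈ range (n + 1), q.choose m * (m.factorial * (m * Nat.stirlingSecond n m)) := by
      rw [← sum_add_distrib]
      apply sum_congr rfl
      intro m _
      rw [sti_choose, Nat.factorial_succ]
      ring
    have h3 : ∑ m ∈ range (n + 1), q.choose m * (m.factorial * (m * Nat.stirlingSecond n m)) =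
        ∑ m ∈ range (n + 1), q.choose (m + 1) *
          ((m + 1).factorial * ((m + 1) * Nat.stirlingSecond n (m + 1))) := by
      rw [sum_range_succ']
      have h4 := sum_range_succ (fun m => q.choose (m + 1) *
          ((m + 1).factorial * ((m + 1) * Nat.stirlingSecond n (m + 1)))) n
      rw [h4, Nat.stirlingSecond_eq_zero_of_lt (Nat.lt_succ_self n)]
      simp
    have h5 : Nat.stirlingSecond (n + 1) 0 = 0 := Nat.stirlingSecond_succ_zero n
    have h6 := sum_range_succ' (fun m => q.choose m * (m.factorial *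
      Nat.stirlingSecond (n + 1) m)) (n + 1)
    rw [h5, mul_zero, mul_zero, add_zero] at h6
    rw [h1, h2, h3, h6, ← sum_add_distrib]
    apply sum_congr rfl
    intro m _
    rw [Nat.stirlingSecond_succ_succ]
    ring

theorem sti_fz {n : ℕ} (B : Finset (Fin n)) : fz (∅ : Finset (Finset (Fin n))) B = 1 := by
  classical
  unfold fz
  rw [if_pos]
  intro e he
  exact absurd he (notMem_empty e)

theorem sti_pw {n : ℕ} (q : ℕ) : ∀ W : Finset (Fin n),
    pw (fz (∅ : Finset (Finset (Fin n)))) q W = (q : ℤ) ^ W.card := by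
  induction q with
  | zero =>
    intro W
    by_cases h : W = ∅
    · rw [h, card_empty, pow_zero]
      simp [pw]
    · have h1 : W.card ≠ 0 := fun h' => h (card_eq_zero.1 h')
      rw [Nat.cast_zero, zero_pow h1]
      simp [pw, h]
  | succ q ih =>
    intro W
    have h1 : pw (fz (∅ : Finset (Finset (Fin n)))) (q + 1) W =
        ∑ S ∈ W.powerset, (1 : ℤ) ^ S.card * (q : ℤ) ^ (W.card - S.card) := by
      show ∑ S ∈ W.powerset, fz (∅ : Finset (Finset (Fin n))) S * pw (fz ∅) q (W \ S) = _
      apply sum_congr rfl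
      intro S hS
      rw [ih, sti_fz, one_pow, card_sdiff_of_subset (mem_powerset.1 hS)]
    rw [h1, sum_pow_mul_eq_add_pow]
    push_cast
    ring

theorem sti_sur (n m : ℕ) (hm : m ≤ n) :
    sur (∅ : Finset (Finset (Fin n))) univ m = m.factorial * Nat.stirlingSecond n m := by
  have hA : Al (∅ : Finset (Finset (Fin n))) ∅ := fun e he => absurd he (notMem_empty e)
  have key : ∀ q : ℕ, ∑ m ∈ range (n + 1), (q.choose m) * sur (∅ : Finset (Finset (Fin n))) univ m =
      ∑ m ∈ range (n + 1), q.choose m * (m.factorial * Nat.stirlingSecond n m) := by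
    intro q
    have h1 := st_BIN n (∅ : Finset (Finset (Fin n))) hA q univ
    rw [sti_pw, card_univ, Fintype.card_fin] at h1
    have h2 : ∀ m ∈ range (n + 1), (q.choose m : ℤ) * pw (fp (∅ : Finset (Finset (Fin n)))) m univ =
        (q.choose m : ℤ) * (sur (∅ : Finset (Finset (Fin n))) univ m : ℤ) := by
      intro m _
      rw [st_SURC n ∅ m univ]
    rw [sum_congr rfl h2] at h1
    have h3 : ((∑ m ∈ range (n + 1), (q.choose m) * sur (∅ : Finset (Finset (Fin n))) univ m : ℕ)
        : ℤ) = ((q ^ n : ℕ) : ℤ) := by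
      push_cast
      exact h1.symm
    have h4 := Nat.cast_injective h3
    rw [h4]
    exact sti_pow n q
  induction m using Nat.strong_induction_on with
  | _ m ih =>
    have h1 := key m
    have hsplit : ∀ F : ℕ → ℕ, ∑ i ∈ range (n + 1), m.choose i * F i =
        ∑ i ∈ range m, m.choose i * F i + F m := by
      intro F
      have h5 : range (m + 1) ⊆ range (n + 1) := range_subset_range.2 (by omega)
      rw [← sum_subset h5, sum_range_succ, Nat.choose_self, one_mul]
      intro i _ hi
      rw [mem_range, not_lt] at hi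
      rw [Nat.choose_eq_zero_of_lt (by omega), zero_mul]
    rw [hsplit, hsplit] at h1
    have h6 : ∑ i ∈ range m, m.choose i * sur (∅ : Finset (Finset (Fin n))) univ i =
        ∑ i ∈ range m, m.choose i * (i.factorial * Nat.stirlingSecond n i) := by
      apply sum_congr rfl
      intro i hi
      rw [mem_range] at hi
      rw [ih i hi (by omega)]
    rw [h6] at h1
    omega

theorem sti_bc (n m : ℕ) (hm : m ≤ n) :
    bc (∅ : Finset (Finset (Fin n))) m = Nat.stirlingSecond n m := by
  have h1 := st_LNK n (∅ : Finset (Finset (Fin n))) m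
  rw [sti_sur n m hm, mul_comm] at h1
  exact Nat.eq_of_mul_eq_mul_left (Nat.factorial_pos m) h1

theorem sti_pos (n : ℕ) : ∀ m : ℕ, 1 ≤ m → m ≤ n → 0 < Nat.stirlingSecond n m := by
  induction n with
  | zero => intro m h1 h2; omega
  | succ n ih =>
    intro m h1 h2
    obtain ⟨k, rfl⟩ : ∃ k, m = k + 1 := ⟨m - 1, by omega⟩
    rw [Nat.stirlingSecond_succ_succ]
    rcases Nat.lt_or_ge k n with h | h
    · have := ih (k + 1) (by omega) (by omega)
      positivity
    · have hk : k = n := by omega
      subst hk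
      rw [Nat.stirlingSecond_self]
      omega

theorem sti_two (n : ℕ) (hn : 1 ≤ n)
    (h : ∀ m : ℕ, Nat.stirlingSecond n m * Nat.stirlingSecond n (m + 2) ≤
      Nat.stirlingSecond n (m + 1) ^ 2) (m : ℕ) :
    Nat.stirlingSecond n m * Nat.stirlingSecond n (m + 3) ≤
      Nat.stirlingSecond n (m + 1) * Nat.stirlingSecond n (m + 2) := by
  rcases Nat.eq_zero_or_pos m with h0 | h0
  · subst h0
    obtain ⟨k, rfl⟩ : ∃ k, n = k + 1 := ⟨n - 1, by omega⟩
    rw [Nat.stirlingSecond_succ_zero, zero_mul]
    exact Nat.zero_le _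
  · rcases Nat.lt_or_ge n (m + 3) with h1 | h1
    · rw [Nat.stirlingSecond_eq_zero_of_lt h1, mul_zero]
      exact Nat.zero_le _
    · have p0 := sti_pos n m h0 (by omega)
      have p1 := sti_pos n (m + 1) (by omega) (by omega)
      have p2 := sti_pos n (m + 2) (by omega) (by omega)
      have p3 := sti_pos n (m + 3) (by omega) (by omega)
      have q1 := h m
      have q2 := h (m + 1)
      have q2' : Nat.stirlingSecond n (m + 1) * Nat.stirlingSecond n (m + 3) ≤
        Nat.stirlingSecond n (m + 2) ^ 2 := q2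
      have q3 := Nat.mul_le_mul q1 q2'
      have p4 : 0 < Nat.stirlingSecond n (m + 1) * Nat.stirlingSecond n (m + 2) :=
        Nat.mul_pos p1 p2
      refine Nat.le_of_mul_le_mul_left ?_ p4
      calc Nat.stirlingSecond n (m + 1) * Nat.stirlingSecond n (m + 2) *
            (Nat.stirlingSecond n m * Nat.stirlingSecond n (m + 3))
          = Nat.stirlingSecond n m * Nat.stirlingSecond n (m + 2) *
            (Nat.stirlingSecond n (m + 1) * Nat.stirlingSecond n (m + 3)) := by ring
        _ ≤ Nat.stirlingSecond n (m + 1) ^ 2 * Nat.stirlingSecond n (m + 2) ^ 2 := q3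
        _ = Nat.stirlingSecond n (m + 1) * Nat.stirlingSecond n (m + 2) *
            (Nat.stirlingSecond n (m + 1) * Nat.stirlingSecond n (m + 2)) := by ring

theorem sti_alg (a b c d m : ℕ) (h1 : b * d ≤ c ^ 2) (h2 : a * d ≤ b * c) (h3 : a * c ≤ b ^ 2) :
    (m * b + a) * ((m + 2) * d + c) ≤ ((m + 1) * c + b) ^ 2 := by
  nlinarith [Nat.zero_le m, Nat.mul_le_mul_left (m * m + 2 * m) h1, Nat.mul_le_mul_left (m + 2) h2,
    Nat.zero_le (b * c), Nat.zero_le (c ^ 2)]

theorem sti_lc (n : ℕ) (hn : 1 ≤ n) : ∀ m : ℕ,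
    Nat.stirlingSecond n m * Nat.stirlingSecond n (m + 2) ≤ Nat.stirlingSecond n (m + 1) ^ 2 := by
  induction n with
  | zero => omega
  | succ n ih =>
    rcases Nat.eq_zero_or_pos n with h0 | h0
    · subst h0
      intro m
      rw [Nat.stirlingSecond_eq_zero_of_lt (show 0 + 1 < m + 2 by omega), mul_zero]
      exact Nat.zero_le _
    · have ih' := ih h0
      intro m
      rcases Nat.eq_zero_or_pos m with h1 | h1
      · subst h1
        rw [Nat.stirlingSecond_succ_zero, zero_mul]
        exact Nat.zero_le _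
      · obtain ⟨k, rfl⟩ : ∃ k, m = k + 1 := ⟨m - 1, by omega⟩
        have e1 : Nat.stirlingSecond (n + 1) (k + 1) =
          (k + 1) * Nat.stirlingSecond n (k + 1) + Nat.stirlingSecond n k :=
          Nat.stirlingSecond_succ_succ n k
        have e2 : Nat.stirlingSecond (n + 1) (k + 1 + 1) =
          (k + 1 + 1) * Nat.stirlingSecond n (k + 1 + 1) + Nat.stirlingSecond n (k + 1) :=
          Nat.stirlingSecond_succ_succ n (k + 1)
        have e3 : Nat.stirlingSecond (n + 1) (k + 1 + 2) =
          (k + 1 + 2) * Nat.stirlingSecond n (k + 1 + 2) + Nat.stirlingSecond n (k + 1 + 1) :=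
          Nat.stirlingSecond_succ_succ n (k + 1 + 1)
        rw [e1, e2, e3]
        exact sti_alg _ _ _ _ (k + 1) (ih' (k + 1)) (sti_two n h0 ih' k) (ih' k)

theorem st_STI : ST_STI := by
  intro n E hE
  subst hE
  rcases Nat.eq_zero_or_pos n with h0 | h0
  · subst h0
    exact ⟨0, fun i j h1 h2 h3 => by omega, fun i j h1 h2 h3 => by
      have hi : i = 0 := by omega
      have hj : j = 0 := by omega
      rw [hi, hj]⟩
  · have h1 := st_UNI n 0 n (fun m => Nat.stirlingSecond n m) (Nat.zero_le n)
      (fun m h1 h2 => by omega)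
      (fun m h1 h2 => by
        refine ⟨sti_pos n m h1 h2, ?_⟩
        obtain ⟨k, rfl⟩ : ∃ k, m = k + 1 := ⟨m - 1, by omega⟩
        exact sti_lc n h0 k)
      (fun m h1 h2 => by omega)
    obtain ⟨k, hk1, hk2⟩ := h1
    rcases Nat.lt_or_ge n k with h | h
    · refine ⟨n, ?_, ?_⟩
      · intro i j h2 h3 h4
        rw [sti_bc n i (by omega), sti_bc n j (by omega)]
        exact hk1 i j h2 h3 (by omega)
      · intro i j h2 h3 h4
        have : i = j := by omega
        rw [this]
    · refine ⟨k, ?_, ?_⟩
      · intro i j h2 h3 h4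
        rw [sti_bc n i (by omega), sti_bc n j (by omega)]
        exact hk1 i j h2 h3 h4
      · intro i j h2 h3 h4
        rw [sti_bc n i (by omega), sti_bc n j (by omega)]
        exact hk2 i j h2 h3 h4

end Pool.Agent.Helper8.UN
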